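import Pool.Agent.V5helper14.FB.Stm

/-!
# Project FB: MONO
-/

set_option autoImplicit false

namespace Pool.Agent.V5helper26.FB

open Pool.Agent.V5helper14.FB

theorem t_MONO : S_MONO := by
  intro r k H V _ H' hc hF
  obtain ⟨φ⟩ := hc
  obtain ⟨f, h1, h2, h3⟩ := hF
  have hadj : ∀ {a b}, H.Adj a b → H'.Adj (φ a) (φ b) := fun h => φ.toHom.map_adj h
  have hinj : Function.Injective φ := φ.injective
  have hcard : ∀ v, Set.ncard {u | H.Adj v u ∧ f (φ u) < f (φ v)} ≤
      Set.ncard {u | H'.Adj (φ v) u ∧ f u < f (φ v)} := fun v =>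
    Set.ncard_le_ncard_of_injOn φ (fun u hu => ⟨hadj hu.1, hu.2⟩) hinj.injOn (Set.toFinite _)
  refine ⟨fun v => f (φ v), fun i => ?_, fun v u u' hu hu' he hl => ?_, fun v => ?_⟩
  · let ψ : H.induce {v | f (φ v) = i} →g H'.induce {v | f v = i} :=
      { toFun := fun x => ⟨φ x.1, x.2⟩
        map_rel' := fun {a b} h => hadj h }
    refine (h1 i).comap ψ ?_
    intro a b hab
    exact Subtype.ext (hinj (congrArg Subtype.val hab))
  · exact hinj (h2 _ _ _ (hadj hu) (hadj hu') he hl)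
  · rcases h3 (φ v) with h | ⟨h, h'⟩
    · exact Or.inl ((Nat.add_le_add_right (hcard v) 1).trans h)
    · exact Or.inr ⟨(hcard v).trans h, fun u hu => h' _ (hadj hu)⟩

end Pool.Agent.V5helper26.FB
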